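import Pool.Agent.H47.SQ.Targets

/-!
# The savings of search on random `k`-SAT (MP_c62aed_lc): row TAR
-/

set_option autoImplicit false

namespace Pool.Agent.H11.SQ

open Finset Pool.Agent.H97.RK Pool.Agent.H41.SS Pool.Agent.H47.SR

theorem pf_TAR (hASK : Pool.Agent.H41.SS.T_ASK) : Pool.Agent.H47.SR.T_TAR := by
  intro n k m F D d w h6 x y A B W J hGd hSta hyx
  induction B using Finset.induction_on with
  | empty =>
    intro _
    refine ⟨y, W, J, subset_refl _, fun u _ => rfl, hyx, ?_⟩
    rw [Finset.union_empty]
    exact hSta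
  | insert v B _ ih =>
    intro hcard
    have hsub : (A ∪ B).card ≤ (A ∪ insert v B).card := by
      apply Finset.card_le_card
      exact Finset.union_subset_union_right (Finset.subset_insert v B)
    obtain ⟨y₁, W₁, J₁, hW, hy, hyx₁, hS₁⟩ := ih (by omega)
    have hins : A ∪ insert v B = insert v (A ∪ B) := Finset.union_insert v A B
    obtain ⟨y', W', J', hW', hy', hyx', hS'⟩ := hASK n k m F D d w 0 (by omega) x y₁ (A ∪ B) W₁ J₁
      v hGd hS₁ hyx₁ (by rw [← hins]; exact hcard)
    refine ⟨y', W', J', hW.trans hW', fun u hu => ?_, hyx', ?_⟩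
    · rw [← hy u hu]
      apply hy'
      rw [Finset.mem_insert]
      right
      rw [Finset.mem_union] at hu ⊢
      rcases hu with h | h
      · exact Or.inl (Finset.mem_union_left _ h)
      · exact Or.inr (hW h)
    · rw [hins]
      exact hS'

end Pool.Agent.H11.SQ
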